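import Mathlib
import Pool.Agent.H770R2.Spec.Props

open scoped ComplexOrder InnerProductSpace
open Filter

noncomputable section

namespace H770R2.Spec

namespace LimAux

variable {A : Type} [CStarAlgebra A] [PartialOrder A] [StarOrderedRing A]

theorem state_nonneg {ρ : A →ₗ[ℂ] ℂ} (h : IsState ρ) {b : A} (hb : 0 ≤ b) : 0 ≤ (ρ b).re := by
  obtain ⟨c, hc⟩ := CStarAlgebra.nonneg_iff_eq_star_mul_self.mp hb
  have := h.2 c
  rw [← hc] at this
  exact (Complex.nonneg_iff.mp this).1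

theorem state_mono {ρ : A →ₗ[ℂ] ℂ} (h : IsState ρ) {a b : A} (hab : a ≤ b) :
    (ρ a).re ≤ (ρ b).re := by
  have := state_nonneg h (sub_nonneg.mpr hab)
  rw [map_sub, Complex.sub_re] at this
  linarith

/-- scalar function -/
def kap (z : ℂ) (s : ℂ) : ℂ := Complex.exp (z * s) - 1 - (Complex.exp z - 1) * s

def LL (z : ℂ) : ℝ := (2 * ‖z‖ * Real.exp ‖z‖) * (2 * ‖z‖ * Real.exp ‖z‖ * Real.exp ‖z‖)

theorem exp_sub_one (x : ℂ) : ‖Complex.exp x - 1‖ ≤ ‖x‖ * Real.exp ‖x‖ := by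
  have := Complex.norm_exp_sub_sum_le_norm_mul_exp x 1
  simpa using this

theorem kap_le (z : ℂ) (s : ℝ) (h0 : 0 ≤ s) (h1 : s ≤ 1) :
    ‖kap z s‖ ^ 2 ≤ LL z * (s - s ^ 2) := by
  have hz := norm_nonneg z
  have hE : 1 ≤ Real.exp ‖z‖ := Real.one_le_exp hz
  have ez := exp_sub_one z
  have hs : ‖(s : ℂ)‖ = s := by rw [Complex.norm_real, Real.norm_of_nonneg h0]
  have hs' : ‖((1 - s : ℝ) : ℂ)‖ = 1 - s := by
    rw [Complex.norm_real, Real.norm_of_nonneg (by linarith)]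
  have b1 : ‖kap z s‖ ≤ (2 * ‖z‖ * Real.exp ‖z‖) * s := by
    have e1 := exp_sub_one (z * s)
    rw [norm_mul, hs] at e1
    have e2 : Real.exp (‖z‖ * s) ≤ Real.exp ‖z‖ := Real.exp_le_exp.mpr (by nlinarith)
    have e3 : ‖kap z s‖ ≤ ‖Complex.exp (z * s) - 1‖ + ‖(Complex.exp z - 1) * s‖ := norm_sub_le _ _
    rw [norm_mul, hs] at e3
    have e4 : ‖z‖ * s * Real.exp (‖z‖ * s) ≤ ‖z‖ * s * Real.exp ‖z‖ := by gcongr
    have e5 : ‖Complex.exp z - 1‖ * s ≤ ‖z‖ * Real.exp ‖z‖ * s := by gcongr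
    nlinarith
  have b2 : ‖kap z s‖ ≤ (2 * ‖z‖ * Real.exp ‖z‖ * Real.exp ‖z‖) * (1 - s) := by
    have e0 : kap z s = Complex.exp z * (Complex.exp (-(z * ((1 - s : ℝ) : ℂ))) - 1) +
        (Complex.exp z - 1) * ((1 - s : ℝ) : ℂ) := by
      have : Complex.exp (z * s) = Complex.exp z * Complex.exp (-(z * ((1 - s : ℝ) : ℂ))) := by
        rw [← Complex.exp_add]
        congr 1
        push_cast
        ring
      rw [kap, this]
      push_cast
      ring
    have e1 := exp_sub_one (-(z * ((1 - s : ℝ) : ℂ)))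
    rw [norm_neg, norm_mul, hs'] at e1
    have e2 : Real.exp (‖z‖ * (1 - s)) ≤ Real.exp ‖z‖ := Real.exp_le_exp.mpr (by nlinarith)
    have e3 := norm_add_le (Complex.exp z * (Complex.exp (-(z * ((1 - s : ℝ) : ℂ))) - 1))
      ((Complex.exp z - 1) * ((1 - s : ℝ) : ℂ))
    rw [← e0, norm_mul, norm_mul, hs'] at e3
    have hs1 : 0 ≤ 1 - s := by linarith
    have e4 : ‖z‖ * (1 - s) * Real.exp (‖z‖ * (1 - s)) ≤ ‖z‖ * (1 - s) * Real.exp ‖z‖ := by gcongr
    have e5 : ‖Complex.exp z - 1‖ * (1 - s) ≤ ‖z‖ * Real.exp ‖z‖ * (1 - s) := by gcongr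
    have e6 : ‖Complex.exp z‖ ≤ Real.exp ‖z‖ := by
      rw [Complex.norm_exp]
      exact Real.exp_le_exp.mpr (Complex.re_le_norm z)
    have e7 : ‖Complex.exp z‖ * ‖Complex.exp (-(z * ((1 - s : ℝ) : ℂ))) - 1‖ ≤
        Real.exp ‖z‖ * (‖z‖ * (1 - s) * Real.exp ‖z‖) := by
      gcongr
      exact e1.trans e4
    have e8 : ‖z‖ * Real.exp ‖z‖ * (1 - s) ≤ ‖z‖ * Real.exp ‖z‖ * Real.exp ‖z‖ * (1 - s) := by
      have : 0 ≤ ‖z‖ * Real.exp ‖z‖ * (1 - s) := by positivity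
      nlinarith
    nlinarith
  have hs1 : 0 ≤ 1 - s := by linarith
  calc ‖kap z s‖ ^ 2 = ‖kap z s‖ * ‖kap z s‖ := sq _
    _ ≤ ((2 * ‖z‖ * Real.exp ‖z‖) * s) * ((2 * ‖z‖ * Real.exp ‖z‖ * Real.exp ‖z‖) * (1 - s)) := by
      gcongr
    _ = LL z * (s - s ^ 2) := by rw [LL]; ring

/-- remainder -/
def kk (z : ℂ) (e : A) : A := NormedSpace.exp (z • e) - 1 - (Complex.exp z - 1) • e

theorem kk_eq (z : ℂ) {e : A} (he : IsSelfAdjoint e) : kk z e = cfc (kap z) e := by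
  have hn : IsStarNormal e := he.isStarNormal
  have h1 : NormedSpace.exp (z • e) = cfc (fun x : ℂ => Complex.exp (z * x)) e := by
    rw [← CFC.complex_exp_eq_normedSpace_exp (a := z • e) (hn.smul z)]
    rw [← cfc_comp_smul z Complex.exp e]
    rfl
  have hc1 : Continuous fun x : ℂ => Complex.exp (z * x) := by fun_prop
  have hc2 : Continuous fun x : ℂ => (Complex.exp z - 1) * x := by fun_prop
  unfold kap
  rw [cfc_sub (fun x : ℂ => Complex.exp (z * x) - 1) (fun x => (Complex.exp z - 1) * x) e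
    (by fun_prop) (by fun_prop), cfc_sub (fun x : ℂ => Complex.exp (z * x)) (fun _ => 1) e
    (by fun_prop) (by fun_prop), ← h1, cfc_const_one ℂ e]
  have h3 : cfc (fun x : ℂ => (Complex.exp z - 1) * x) e = (Complex.exp z - 1) • e := by
    rw [cfc_const_mul (Complex.exp z - 1) (fun x => x) e (by fun_prop), cfc_id' ℂ e]
  rw [h3]
  rfl

theorem kk_normal (z : ℂ) {e : A} (he : IsSelfAdjoint e) :
    star (kk z e) * kk z e = kk z e * star (kk z e) := by
  have hn : IsStarNormal e := he.isStarNormal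
  rw [kk_eq z he]
  exact (cfc_predicate (kap z) e).star_comm_self

theorem kk_le (z : ℂ) {e : A} (he0 : 0 ≤ e) (he1 : e ≤ 1) :
    star (kk z e) * kk z e ≤ (LL z : ℂ) • (e - e * e) := by
  have he : IsSelfAdjoint e := he0.isSelfAdjoint
  have hn : IsStarNormal e := he.isStarNormal
  have hk : Continuous (kap z) := by unfold kap; fun_prop
  have h1 : star (kk z e) * kk z e = cfc (fun s : ℝ => ‖kap z s‖ ^ 2) e := by
    rw [kk_eq z he, ← cfc_star, ← cfc_mul (fun x => star (kap z x)) (kap z) e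
      (by fun_prop) (by fun_prop), cfc_real_eq_complex _ he]
    refine cfc_congr (fun x hx => ?_)
    have hx' := he.mem_spectrum_eq_re hx
    change star (kap z x) * kap z x = ((‖kap z (x.re : ℂ)‖ ^ 2 : ℝ) : ℂ)
    rw [← hx']
    have := Complex.conj_mul' (kap z x)
    rw [Complex.ofReal_pow]
    exact this
  have h2 : (LL z : ℂ) • (e - e * e) = cfc (fun s : ℝ => LL z * (s - s ^ 2)) e := by
    rw [cfc_const_mul (LL z) (fun s : ℝ => s - s ^ 2) e (by fun_prop),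
      cfc_sub (fun s : ℝ => s) (fun s => s ^ 2) e (by fun_prop) (by fun_prop), cfc_id' ℝ e,
      cfc_pow_id e 2, sq]
    exact Complex.coe_smul (LL z) (e - e * e)
  rw [h1, h2]
  have hk' : Continuous (fun s : ℝ => ‖kap z s‖ ^ 2) := by
    have : Continuous fun s : ℝ => kap z (s : ℂ) := hk.comp Complex.continuous_ofReal
    fun_prop
  refine cfc_mono (fun s hs => ?_) hk'.continuousOn (by fun_prop)
  exact kap_le z s (spectrum_nonneg_of_nonneg he0 hs) ((CFC.le_one_iff (R := ℝ) e).mp he1 s hs)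

variable {H : Type} [NormedAddCommGroup H] [InnerProductSpace ℂ H] [CompleteSpace H]

theorem tendsto_zero [Nontrivial A] (hp : H770R2.Kad.H_piet.{0, 0}) (T : A →ₗ[ℂ] H) (M : ℝ)
    (hM : 0 ≤ M) (hT : ∀ b, ‖T b‖ ≤ M * ‖b‖) (k : ℕ → A)
    (hn : ∀ n, star (k n) * k n = k n * star (k n))
    (hk : ∀ ρ : A →ₗ[ℂ] ℂ, IsState ρ → Tendsto (fun n => (ρ (star (k n) * k n)).re) atTop
      (nhds 0)) : Tendsto (fun n => T (k n)) atTop (nhds 0) := by
  obtain ⟨φ, ψ, h1, h2, h3, h4, h5⟩ := hp A H T M hM hT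
  have hφ := hk φ ⟨h1, h3⟩
  have hψ := hk ψ ⟨h2, h4⟩
  have hs : Tendsto (fun n => 3 * M ^ 2 * ((φ (star (k n) * k n)).re +
      (ψ (star (k n) * k n)).re)) atTop (nhds 0) := by
    have := (hφ.add hψ).const_mul (3 * M ^ 2)
    simpa using this
  have hsq : Tendsto (fun n => ‖T (k n)‖ ^ 2) atTop (nhds 0) := by
    refine squeeze_zero (fun n => by positivity) (fun n => ?_) hs
    have := h5 (k n)
    rwa [← hn n] at this
  have h6 : Tendsto (fun n => Real.sqrt (‖T (k n)‖ ^ 2)) atTop (nhds (Real.sqrt 0)) :=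
    (Real.continuous_sqrt.tendsto 0).comp hsq
  rw [Real.sqrt_zero] at h6
  rw [tendsto_zero_iff_norm_tendsto_zero]
  refine h6.congr (fun n => ?_)
  rw [Real.sqrt_sq (norm_nonneg _)]

theorem cauchy [Nontrivial A] (hp : H770R2.Kad.H_piet.{0, 0}) (T : A →ₗ[ℂ] H) (M : ℝ)
    (hM : 0 ≤ M) (hT : ∀ b, ‖T b‖ ≤ M * ‖b‖) (e : ℕ → A) (he : IsPSeq e) :
    CauchySeq (fun n => T (e n)) := by
  obtain ⟨φ, ψ, h1, h2, h3, h4, h5⟩ := hp A H T M hM hT
  rw [Metric.cauchySeq_iff]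
  intro ε hε
  set η := ε ^ 2 / (12 * (M ^ 2 + 1)) with hη
  have hη0 : 0 < η := by positivity
  obtain ⟨N₁, hN₁⟩ := he.cau φ ⟨h1, h3⟩ η hη0
  obtain ⟨N₂, hN₂⟩ := he.cau ψ ⟨h2, h4⟩ η hη0
  refine ⟨max N₁ N₂, fun m hm n hn => ?_⟩
  have hsa : star (e m - e n) = e m - e n := by
    rw [star_sub, (he.nonneg m).isSelfAdjoint.star_eq, (he.nonneg n).isSelfAdjoint.star_eq]
  have h6 := h5 (e m - e n)
  rw [hsa, map_sub] at h6
  have h7 := hN₁ m n ((le_max_left _ _).trans hm) ((le_max_left _ _).trans hn)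
  have h8 := hN₂ m n ((le_max_right _ _).trans hm) ((le_max_right _ _).trans hn)
  rw [dist_eq_norm]
  have h9 : ‖T (e m) - T (e n)‖ ^ 2 < ε ^ 2 := by
    calc ‖T (e m) - T (e n)‖ ^ 2 ≤ 3 * M ^ 2 * (η + η) := h6.trans (by gcongr)
      _ = ε ^ 2 * (M ^ 2 / (2 * (M ^ 2 + 1))) := by rw [hη]; field_simp; ring
      _ < ε ^ 2 * 1 := by
        gcongr
        rw [div_lt_one (by positivity)]
        nlinarith [sq_nonneg M]
      _ = ε ^ 2 := mul_one _
  exact lt_of_pow_lt_pow_left₀ 2 hε.le h9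

end LimAux

open LimAux

theorem prove_lim (h : H770R2.Kad.H_piet.{0, 0}) : P_lim := by
  intro A _ _ _ _ H _ _ _ w C hw e he
  -- the two linear maps
  have hC' : ∀ a, ‖w a‖ ≤ max C 0 * ‖a‖ := fun a =>
    (hw a).trans (mul_le_mul_of_nonneg_right (le_max_left _ _) (norm_nonneg _))
  let T : H → A →ₗ[ℂ] H := fun ξ =>
    { toFun := fun a => w a ξ
      map_add' := fun a b => by simp
      map_smul' := fun c a => by simp }
  let T' : H → A →ₗ[ℂ] H := fun ξ =>
    { toFun := fun a => star (w (star a)) ξ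
      map_add' := fun a b => by simp
      map_smul' := fun c a => by
        rw [star_smul, map_smul, star_smul, star_star]
        rfl }
  have hT : ∀ ξ a, ‖T ξ a‖ ≤ max C 0 * ‖ξ‖ * ‖a‖ := fun ξ a =>
    calc ‖w a ξ‖ ≤ ‖w a‖ * ‖ξ‖ := (w a).le_opNorm ξ
      _ ≤ max C 0 * ‖a‖ * ‖ξ‖ := by gcongr; exact hC' a
      _ = _ := by ring
  have hT' : ∀ ξ a, ‖T' ξ a‖ ≤ max C 0 * ‖ξ‖ * ‖a‖ := fun ξ a =>
    calc ‖star (w (star a)) ξ‖ ≤ ‖star (w (star a))‖ * ‖ξ‖ := (star (w (star a))).le_opNorm ξ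
      _ ≤ max C 0 * ‖a‖ * ‖ξ‖ := by
        gcongr
        rw [norm_star]
        refine (hC' _).trans ?_
        rw [norm_star]
      _ = _ := by ring
  have hM : ∀ ξ : H, 0 ≤ max C 0 * ‖ξ‖ := fun ξ =>
    mul_nonneg (le_max_right _ _) (norm_nonneg _)
  have hsa : ∀ n, star (e n) = e n := fun n => (he.nonneg n).isSelfAdjoint.star_eq
  have hlim : ∀ ξ, ∃ y, Tendsto (fun n => w (e n) ξ) atTop (nhds y) := fun ξ =>
    cauchySeq_tendsto_of_complete (cauchy h (T ξ) _ (hM ξ) (hT ξ) e he)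
  have hlim' : ∀ ξ, ∃ y, Tendsto (fun n => star (w (e n)) ξ) atTop (nhds y) := fun ξ => by
    obtain ⟨y, hy⟩ := cauchySeq_tendsto_of_complete (cauchy h (T' ξ) _ (hM ξ) (hT' ξ) e he)
    refine ⟨y, hy.congr (fun n => ?_)⟩
    change star (w (star (e n))) ξ = _
    rw [hsa]
  choose q hq using hlim
  choose q' hq' using hlim'
  let Q : H →L[ℂ] H := continuousLinearMapOfTendsto (fun n => w (e n)) (f := q)
    (tendsto_pi_nhds.mpr hq)
  have hQ : ∀ ξ, Q ξ = q ξ := fun ξ => rfl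
  have hQ' : ∀ ξ, star Q ξ = q' ξ := by
    intro ξ
    refine ext_inner_right ℂ (fun η => ?_)
    have h1 : Tendsto (fun n => ⟪star (w (e n)) ξ, η⟫_ℂ) atTop (nhds ⟪q' ξ, η⟫_ℂ) :=
      (hq' ξ).inner tendsto_const_nhds
    have h2 : Tendsto (fun n => ⟪ξ, w (e n) η⟫_ℂ) atTop (nhds ⟪ξ, q η⟫_ℂ) :=
      tendsto_const_nhds.inner (hq η)
    have h3 : ⟪star Q ξ, η⟫_ℂ = ⟪ξ, q η⟫_ℂ := by
      rw [ContinuousLinearMap.star_eq_adjoint, ContinuousLinearMap.adjoint_inner_left, hQ]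
    rw [h3]
    refine tendsto_nhds_unique h2 (h1.congr (fun n => ?_))
    rw [ContinuousLinearMap.star_eq_adjoint, ContinuousLinearMap.adjoint_inner_left]
  have hkst : ∀ z : ℂ, ∀ ρ : A →ₗ[ℂ] ℂ, IsState ρ →
      Tendsto (fun n => (ρ (star (kk z (e n)) * kk z (e n))).re) atTop (nhds 0) := by
    intro z ρ hρ
    have h1 : Tendsto (fun n => LL z * (ρ (e n - e n * e n)).re) atTop (nhds 0) := by
      have := (he.proj ρ hρ).const_mul (LL z)
      simpa using this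
    refine squeeze_zero (fun n => state_nonneg hρ (star_mul_self_nonneg _)) (fun n => ?_) h1
    have h2 := state_mono hρ (kk_le z (he.nonneg n) (he.le_one n))
    rw [map_smul, smul_eq_mul, Complex.re_ofReal_mul] at h2
    exact h2
  refine ⟨Q, hq, fun ξ => by rw [hQ' ξ]; exact hq' ξ, fun z => ⟨fun ξ => ?_, fun ξ => ?_⟩⟩
  · have h1 : Tendsto (fun n => w (kk z (e n)) ξ) atTop (nhds 0) :=
      tendsto_zero h (T ξ) _ (hM ξ) (hT ξ) (fun n => kk z (e n))
        (fun n => kk_normal z (he.nonneg n).isSelfAdjoint) (hkst z)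
    have h2 : Tendsto (fun n => w 1 ξ + (Complex.exp z - 1) • w (e n) ξ + w (kk z (e n)) ξ) atTop
        (nhds (w 1 ξ + (Complex.exp z - 1) • Q ξ + 0)) :=
      (tendsto_const_nhds.add ((hq ξ).const_smul _)).add h1
    rw [add_zero] at h2
    refine h2.congr (fun n => ?_)
    have h3 : NormedSpace.exp (z • e n) = 1 + (Complex.exp z - 1) • e n + kk z (e n) := by
      rw [kk]; abel
    rw [h3, map_add, map_add, map_smul]
    rfl
  · have h1 : Tendsto (fun n => star (w (kk z (e n))) ξ) atTop (nhds 0) := by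
      have := tendsto_zero h (T' ξ) _ (hM ξ) (hT' ξ) (fun n => star (kk z (e n)))
        (fun n => by rw [star_star]; exact (kk_normal z (he.nonneg n).isSelfAdjoint).symm)
        (fun ρ hρ => by
          refine (hkst z ρ hρ).congr (fun n => ?_)
          rw [star_star, kk_normal z (he.nonneg n).isSelfAdjoint])
      refine this.congr (fun n => ?_)
      change star (w (star (star (kk z (e n))))) ξ = _
      rw [star_star]
    have h2 : Tendsto (fun n => star (w 1) ξ + star (Complex.exp z - 1) • star (w (e n)) ξ +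
        star (w (kk z (e n))) ξ) atTop
        (nhds (star (w 1) ξ + star (Complex.exp z - 1) • q' ξ + 0)) :=
      (tendsto_const_nhds.add ((hq' ξ).const_smul _)).add h1
    rw [add_zero, ← hQ' ξ] at h2
    refine h2.congr (fun n => ?_)
    have h3 : NormedSpace.exp (z • e n) = 1 + (Complex.exp z - 1) • e n + kk z (e n) := by
      rw [kk]; abel
    rw [h3, map_add, map_add, map_smul, star_add, star_add, star_smul]
    rfl

end H770R2.Spec
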